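import Mathlib
import Pool.Agent.Run7.h453.CB.Ded

/-!
# The orders of `ζ_L / ζ_K` at all points as limits of sums over the primes

`M / K` is a finite Galois extension of number fields with group `G` and `L` is an intermediate field
(so `L / K` is an arbitrary extension of number fields). For `g ∈ G` let `fix(g)` be the number of the
`K`-embeddings `L → M` fixed by `g`; if the prime `p` of `K` is not ramified in `M`, then
`fix(Frob_p)` is the number of the primes of `L` of degree `1` over `p`, and `log (ζ_L / ζ_K)` has the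
coefficients `(fix(Frob_p^n) - 1) / n`. For `s ∈ ℂ`, `γ > π / 2` and `T > 0` let

  `P(s; T) = ∑_p (fix(Frob_p) - 1) N(p)^(-s) e^(i γ u) / Γ(1 + u)`,  `u = log N(p) / T`,

and let `S(s; T)` be the analogous sum over all the powers `p^n`, with the terms
`(fix(Frob_p^n) - 1) / n · N(p)^(-n s) e^(i γ u) / Γ(1 + u)`, `u = n log N(p) / T` (at the ramified
primes the mean over the Frobenius elements is taken). Put `D(s) = ord_s ζ_L - ord_s ζ_K` and
`κ = |G|⁻¹ ∑_g (fix(g²) - 1)`. All the following results are unconditional.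

(A) For every `s ∈ ℂ`, `S(s; T) = - D(s) (log T - Λ_γ) + r + O(1 / T)`, where `e^r` is the leading
coefficient of `ζ_L / ζ_K` at `s` and `Λ_γ = ∫_0^∞ (e^(-t) - e^(i γ t) / Γ(1 + t)) dt / t`.

(B) For `Re s ≥ 1/2`, `P(s; T) = - D(s) log T + O(1)`, except that
`P(1/2; T) = - (D(1/2) + κ / 2) log T + O(1)`.

(C) `ζ_L / ζ_K` is entire if and only if for every `s` with `1/2 ≤ Re s < 1` the real part of `P(s; T)`
(of `P(s; T) + (κ / 2) log T` if `s = 1/2`) is bounded from above for `T → ∞`: at no point of the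
critical strip the primes `p` are biased towards those with more than one prime of degree `1` of `L`
above them (except for the effect of the squares at `1/2`).

(D) Problem Q1 is equivalent to this statement for all `M / K` and `L`.
-/

set_option autoImplicit false
set_option linter.unusedSectionVars false

namespace Pool.Agent.Results.MP_9fc8a5_nt.PrimeCriterion

open NumberField IsDedekindDomain Filter Topology Set
open Pool.Agent.K4H74

section defs

variable {K M : Type} [Field K] [NumberField K] [Field M] [NumberField M] [Algebra K M]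

/-- The number of the embeddings `L → M` fixed by `g`. -/
noncomputable def fix (L : IntermediateField K M) (g : M ≃ₐ[K] M) : ℕ :=
  Nat.card {φ : L →ₐ[K] M // ∀ y, g (φ y) = φ y}

/-- `(f(p^n) / n) N(p)^(-n s) e^(i γ u) / Γ(1 + u)`, `u = n log N(p) / T`, for `f = fix - 1`; `f(p^n)` is
the mean `Pool.Agent.K4H74.SC.frobMean` of `f` over the Frobenius elements of `p^n`. -/
noncomputable def term (L : IntermediateField K M) (s : ℂ) (γ T : ℝ)
    (x : HeightOneSpectrum (𝓞 K) × ℕ+) : ℂ :=
  SC.frobMean K M (fun g => (fix L g : ℂ) - 1) x.1.asIdeal x.2 / (x.2 : ℕ) *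
    ((Ideal.absNorm x.1.asIdeal : ℕ) : ℂ) ^ (-((x.2 : ℕ) * s)) *
    Complex.exp ((γ * ((x.2 : ℕ) * Real.log (Ideal.absNorm x.1.asIdeal : ℕ) / T) : ℝ) * Complex.I) *
    ((Real.Gamma (1 + (x.2 : ℕ) * Real.log (Ideal.absNorm x.1.asIdeal : ℕ) / T))⁻¹ : ℝ)

/-- `S(s; T)` -/
noncomputable def powerSum (L : IntermediateField K M) (s : ℂ) (γ T : ℝ) : ℂ :=
  ∑' x, term L s γ T x

/-- `P(s; T)` -/
noncomputable def primeSum (L : IntermediateField K M) (s : ℂ) (γ T : ℝ) : ℂ :=
  ∑' p : HeightOneSpectrum (𝓞 K), term L s γ T (p, 1)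

/-- `κ`, the mean of `fix(g²) - 1`. -/
noncomputable def kappa (L : IntermediateField K M) : ℝ :=
  (Nat.card (M ≃ₐ[K] M) : ℝ)⁻¹ * ∑ g : M ≃ₐ[K] M, ((fix L (g ^ 2) : ℝ) - 1)

open Classical in
/-- `κ / 2` at the point `1 / 2`, and `0` at all the other points. -/
noncomputable def squares (L : IntermediateField K M) (s : ℂ) : ℝ :=
  if s = 1 / 2 then kappa L / 2 else 0

/-- There is no bias towards fixed points: for every `s` with `1/2 ≤ Re s < 1` the real part of
`P(s; T)` (of `P(s; T) + (κ / 2) log T` if `s = 1/2`) is bounded from above for `T → ∞`. -/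
def NoBias (L : IntermediateField K M) (γ : ℝ) : Prop :=
  ∀ s : ℂ, 1 / 2 ≤ s.re → s.re < 1 → ∃ C T₀ : ℝ, ∀ T ≥ T₀,
    (primeSum L s γ T).re + squares L s * Real.log T ≤ C

end defs

/-- `Z` is the meromorphic continuation of the Dedekind zeta function of `F`. -/
def IsZeta (F : Type) [Field F] [NumberField F] (Z : ℂ → ℂ) : Prop :=
  (∀ s, MeromorphicAt Z s) ∧ ∀ s : ℂ, 1 < s.re → Z s = dedekindZeta F s

/-- `ζ_L / ζ_K` is entire. -/
def Entire (K L : Type) [Field K] [NumberField K] [Field L] [NumberField L] : Prop :=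
  ∃ g : ℂ → ℂ, Differentiable ℂ g ∧ ∀ s : ℂ, 1 < s.re → g s = dedekindZeta L s / dedekindZeta K s

/-- The order at `s`, an integer. -/
noncomputable def ord (Z : ℂ → ℂ) (s : ℂ) : ℤ := (meromorphicOrderAt Z s).untop₀

/-- `Λ_γ` -/
noncomputable def Lam (γ : ℝ) : ℂ := ∫ t in Ioi (0 : ℝ),
  (Complex.exp (-(t : ℂ)) - Complex.exp ((γ * t : ℝ) * Complex.I) * ((Real.Gamma (1 + t))⁻¹ : ℝ)) / t

section proofs

open Pool.Agent.Run7.h453

variable {K M : Type} [Field K] [NumberField K] [Field M] [NumberField M] [Algebra K M]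

lemma term_eq (L : IntermediateField K M) (s : ℂ) (γ T : ℝ) (x : HeightOneSpectrum (𝓞 K) × ℕ+) :
    term L s γ T x = CX.rterm (ST.lamI K) (SC.logTerm K M (CB.fL L) s) γ T x := by
  unfold term CX.rterm SC.logTerm ST.lamI
  rw [Complex.cpow_neg, div_mul_eq_div_div, div_eq_mul_inv (_ / _)]
  rfl

lemma power_eq (L : IntermediateField K M) (s : ℂ) (γ T : ℝ) :
    powerSum L s γ T = CB.SA (CB.fL L) s γ T := tsum_congr fun x => term_eq L s γ T x

lemma prime_eq (L : IntermediateField K M) (s : ℂ) (γ T : ℝ) :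
    primeSum L s γ T = CB.PA (CB.fL L) s γ T := tsum_congr fun p => term_eq L s γ T (p, 1)

lemma term_summable (L : IntermediateField K M) (s : ℂ) (γ : ℝ) {T : ℝ} (hT : 0 < T) :
    Summable fun x => ‖term L s γ T x‖ := by
  refine (CB.SA_summable (CB.fL L) s γ hT).congr fun x => ?_
  rw [term_eq]

variable [IsGalois K M]

lemma lawB (L : IntermediateField K M) {ZK ZL : ℂ → ℂ} (hK : IsZeta K ZK) (hL : IsZeta L ZL)
    {γ : ℝ} (hγ : Real.pi / 2 < γ) {s : ℂ} (hs : 1 / 2 ≤ s.re) :
    (fun T : ℝ => primeSum L s γ T + (((ord ZL s - ord ZK s : ℤ) : ℝ) + squares L s : ℝ) *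
      Real.log T) =O[atTop] fun _ : ℝ => (1 : ℝ) := by
  have h := CB.fL_law L hK hL hs hγ
  simp only [← prime_eq] at h
  refine h.congr (fun T => ?_) (fun _ => rfl)
  have hkap : kappa L = CB.kap L := rfl
  unfold squares ord
  rw [hkap]
  split_ifs
  · push_cast
    ring
  · push_cast
    ring

lemma bias_iff (L : IntermediateField K M) {ZK ZL : ℂ → ℂ} (hK : IsZeta K ZK) (hL : IsZeta L ZL)
    {γ : ℝ} (hγ : Real.pi / 2 < γ) {s : ℂ} (hs : 1 / 2 ≤ s.re) :
    (∃ C T₀ : ℝ, ∀ T ≥ T₀, (primeSum L s γ T).re + squares L s * Real.log T ≤ C) ↔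
      meromorphicOrderAt ZK s ≤ meromorphicOrderAt ZL s := by
  have h := lawB L hK hL hγ hs
  set D : ℤ := ord ZL s - ord ZK s with hD
  have hle : meromorphicOrderAt ZK s ≤ meromorphicOrderAt ZL s ↔ 0 ≤ D := by
    obtain ⟨a, ha⟩ := WithTop.ne_top_iff_exists.1 (CB.finite_order hK s)
    obtain ⟨b, hb⟩ := WithTop.ne_top_iff_exists.1 (CB.finite_order hL s)
    have hD' : D = b - a := by
      rw [hD]
      unfold ord
      rw [← ha, ← hb]
      simp
    rw [← ha, ← hb, hD', WithTop.coe_le_coe]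
    omega
  rw [hle]
  obtain ⟨B, hB⟩ := h.bound
  obtain ⟨T₁, hT₁⟩ := eventually_atTop.1 hB
  have hreal : ∀ T ≥ T₁, |(primeSum L s γ T).re + squares L s * Real.log T + D * Real.log T| ≤ B := by
    intro T hT
    have h1 := hT₁ T hT
    rw [norm_one, mul_one] at h1
    have h2 := (Complex.abs_re_le_norm _).trans h1
    rw [Complex.add_re, ← Complex.ofReal_mul, Complex.ofReal_re] at h2
    have h3 : (primeSum L s γ T).re + squares L s * Real.log T + D * Real.log T =
        (primeSum L s γ T).re + (((D : ℤ) : ℝ) + squares L s) * Real.log T := by ring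
    rw [h3]
    exact h2
  constructor
  · rintro ⟨C, T₀, hC⟩
    by_contra hneg
    have hD1 : (D : ℝ) ≤ -1 := by
      have : D ≤ -1 := by omega
      exact_mod_cast this
    have h4 := Real.tendsto_log_atTop.eventually_gt_atTop (B + C)
    obtain ⟨T, hT⟩ := ((h4.and (eventually_ge_atTop T₀)).and ((eventually_ge_atTop T₁).and
      (eventually_ge_atTop 1))).exists
    obtain ⟨⟨h5, h6⟩, h7, h8⟩ := hT
    have h9 := hC T h6
    have h10 := (abs_le.1 (hreal T h7)).1
    have h11 : 0 ≤ Real.log T := Real.log_nonneg h8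
    nlinarith
  · intro h0
    refine ⟨B, max T₁ 1, fun T hT => ?_⟩
    have h7 := (abs_le.1 (hreal T ((le_max_left _ _).trans hT))).2
    have h8 : 1 ≤ T := (le_max_right _ _).trans hT
    have h9 : 0 ≤ (D : ℝ) * Real.log T :=
      mul_nonneg (by exact_mod_cast h0) (Real.log_nonneg h8)
    linarith

lemma main_iff (L : IntermediateField K M) {γ : ℝ} (hγ : Real.pi / 2 < γ) :
    Entire K L ↔ NoBias L γ := by
  obtain ⟨ZK, hK1, hK2, -⟩ := CB.good K
  obtain ⟨ZL, hL1, hL2, -⟩ := CB.good L
  have h := CB.holo_iff L ⟨hK1, hK2⟩ ⟨hL1, hL2⟩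
  unfold Entire NoBias
  rw [h]
  refine forall_congr' fun s => forall_congr' fun h1 => forall_congr' fun _ => ?_
  exact (bias_iff L ⟨hK1, hK2⟩ ⟨hL1, hL2⟩ hγ h1).symm

end proofs

/-- every extension is contained in a Galois extension -/
lemma embed (K L : Type) [Field K] [NumberField K] [Field L] [NumberField L] [Algebra K L]
    (h : ∀ (M : Type) [Field M] [NumberField M] [Algebra K M] [IsGalois K M]
      (F : IntermediateField K M), Entire K F) : Entire K L := by
  let N := AlgebraicClosure L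
  let M := IntermediateField.normalClosure K L N
  have : FiniteDimensional K L := Module.Finite.of_restrictScalars_finite ℚ K L
  have : FiniteDimensional K M := normalClosure.is_finiteDimensional K L N
  have : NumberField M := NumberField.of_module_finite K M
  have : Normal K M := normalClosure.normal K L N
  have : IsGalois K M := IsGalois.mk
  have h1 := h M (IsScalarTower.toAlgHom K L M).fieldRange
  obtain ⟨g, hg, hg1⟩ := h1
  refine ⟨g, hg, fun s hs => ?_⟩
  rw [hg1 s hs]
  congr 1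
  have e : L ≃+* (IsScalarTower.toAlgHom K L M).fieldRange :=
    (AlgEquiv.ofInjectiveField (IsScalarTower.toAlgHom K L M)).toRingEquiv
  exact (congrFun (Run7.h375.CM.zeta_congr e) s).symm

open Classical in
theorem result :
    -- the continuations exist, the sums converge absolutely
    (∀ (F : Type) [Field F] [NumberField F], ∃ Z, IsZeta F Z) ∧
    (∀ (K M : Type) [Field K] [NumberField K] [Field M] [NumberField M] [Algebra K M]
      (L : IntermediateField K M) (s : ℂ) (γ T : ℝ), 0 < T → Summable fun x => ‖term L s γ T x‖) ∧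
    (∀ (K M : Type) [Field K] [NumberField K] [Field M] [NumberField M] [Algebra K M] [IsGalois K M]
      (L : IntermediateField K M) (ZK ZL : ℂ → ℂ), IsZeta K ZK → IsZeta L ZL →
      ∀ γ : ℝ, Real.pi / 2 < γ →
      -- (A)
      (∀ s : ℂ, ∃ r : ℂ, Complex.exp r = meromorphicTrailingCoeffAt (fun z => ZL z * (ZK z)⁻¹) s ∧
        (fun T : ℝ => powerSum L s γ T - (-((ord ZL s - ord ZK s : ℤ) : ℂ) *
          (Real.log T - Lam γ) + r)) =O[atTop] fun T : ℝ => 1 / T) ∧
      -- (B)
      ∀ s : ℂ, 1 / 2 ≤ s.re → (fun T : ℝ => primeSum L s γ T +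
        (((ord ZL s - ord ZK s : ℤ) : ℝ) + squares L s : ℝ) * Real.log T) =O[atTop]
          fun _ : ℝ => (1 : ℝ)) ∧
    -- (C)
    (∀ (K M : Type) [Field K] [NumberField K] [Field M] [NumberField M] [Algebra K M] [IsGalois K M]
      (L : IntermediateField K M) (γ : ℝ), Real.pi / 2 < γ → (Entire K L ↔ NoBias L γ)) ∧
    -- (D)
    ∀ γ : ℝ, Real.pi / 2 < γ →
      ((∀ (K L : Type) [Field K] [NumberField K] [Field L] [NumberField L] [Algebra K L],
        Entire K L) ↔
      ∀ (K M : Type) [Field K] [NumberField K] [Field M] [NumberField M] [Algebra K M]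
        [IsGalois K M] (L : IntermediateField K M), NoBias L γ) := by
  refine ⟨fun F _ _ => ?_, fun K M _ _ _ _ _ L s γ T hT => term_summable L s γ hT,
    fun K M _ _ _ _ _ _ L ZK ZL hK hL γ hγ => ⟨fun s => ?_, fun s hs => lawB L hK hL hγ hs⟩,
    fun K M _ _ _ _ _ _ L γ hγ => main_iff L hγ, fun γ hγ => ⟨fun h K M _ _ _ _ _ _ L => ?_,
      fun h K L _ _ _ _ _ => ?_⟩⟩
  · obtain ⟨Z, h1, h2, -⟩ := Pool.Agent.Run7.h453.CB.good F
    exact ⟨Z, h1, h2⟩
  · have hq := Pool.Agent.Run7.h453.CB.quot_cont L hK hL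
    obtain ⟨m, r, C, T₀, hm, hr, h⟩ := Pool.Agent.Run7.h453.CB.law_at
      (Pool.Agent.Run7.h453.CB.fL L) s (fun x _ => hq.1 _) hq.2 hγ
    refine ⟨r, hr, Asymptotics.IsBigO.of_bound C ?_⟩
    rw [Pool.Agent.Run7.h453.CB.quot_order hK.1 hL.1
      (Pool.Agent.Run7.h453.CB.finite_order hK s)
      (Pool.Agent.Run7.h453.CB.finite_order hL s)] at hm
    have hm' : ord ZL s - ord ZK s = m := by exact_mod_cast hm
    filter_upwards [eventually_ge_atTop T₀, eventually_gt_atTop 0] with T hT hT0
    rw [Real.norm_eq_abs, abs_of_pos (by positivity : 0 < 1 / T), mul_one_div]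
    refine le_trans (le_of_eq ?_) (h T hT)
    rw [← norm_neg, power_eq, hm']
    congr 1
    have : Lam γ = Pool.Agent.W187.UR.Lam γ := rfl
    rw [this]
    ring
  · exact (main_iff L hγ).1 (h K L)
  · exact embed K L fun M _ _ _ _ F => (main_iff F hγ).2 (h K M F)

end Pool.Agent.Results.MP_9fc8a5_nt.PrimeCriterion
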