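import Mathlib
import Pool.Agent.Run7.h588.EMB.Small

/-!
# Quotients of Dedekind zeta functions at all points: small subgroups of the symmetric groups

`Pool.Agent.H541R3.ART.ArtinData G s₀` is a family of functions with the formal properties of the
Artin L-functions of a Galois extension `E/K` with group `G` near a point `s₀ ≠ 1`: functions
`L χ` for the irreducible characters `χ` of `G`, meromorphic and not identically zero near `s₀`
(Brauer), and `Lin U ψ` for the linear characters `ψ` of the subgroups `U`, without pole at `s₀`
(Artin reciprocity and Hecke), such that `Lin U ψ` is the product of the `L χ ^ ⟨χ|_U, ψ⟩`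
(induction). In particular `Lin U 1` stands for the Dedekind zeta function of the fixed field of
`U`.

The theorem says: let `E/K` be a Galois extension whose group `G` is `Sym(n)` or contains `Sym(n)`,
let `B` be any subgroup of `Sym(n)` which is small with respect to `n` (order, orders of the elements)
and whose elements `≠ 1` have few fixed points, and let `F` be the fixed field of `B`. Then for all
fields `F ⊆ L' ⊆ L ⊆ E` the quotient `ζ_L / ζ_{L'}` has no pole at any `s₀ ≠ 1`. Nothing is assumed
about zeros. If the order of `B` is bounded then the conditions are `n ≥ N`, and that each element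
`≠ 1` of `B` has at most `n / C` fixed points. In particular every finite group `H` has embeddings in
`Sym(n)` with this property for all large `n`, and every finite group `H` is the group of `E/F` for
some subfield `F` with this property of the splitting field `E` of `X ^ p - X - 1` over `ℚ`, for all
large primes `p`.

Proof. The orders at `s₀` are the multiplicities of a class function `θ` of `G` with nonnegative
multiplicities at the linear characters of all subgroups. Let `c = θ(u)` for a product `u` of
`2 ⌊n/4⌋` disjoint transpositions, and let `g = θ(1) - c`. Then `|θ(b) - c| ≤ 5 g / 2 ^ m` for all even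
permutations `b` with short cycles and few fixed points. The steps:
(1) Let `y` be a permutation all whose cycles have length `j`, and `u'` one all whose cycles have
length `2`. If `n` is divisible by `j 2 ^ (2jm+1)`, then `y` and `u'` can be realised on copies of
`𝔽₂ ^ (2jm+1)`, `u'` as a translation, `y` as a product of two involutions which permute the
coordinates. The group of translations, with the abelian groups `(Q/[Q, x]) × ⟨x⟩` and a dihedral
group, gives `|θ(y) - θ(u')| ≤ 5 (θ(1) - θ(u')) / 2 ^ m`.
(2) The inequality remains true if `y` and `u'` are multiplied with a permutation `z` of other points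
(decomposition of `θ` under `⟨z⟩`). So all but a bounded number of the cycles of length `j ≥ 3` of `b`
can be replaced by transpositions.
(3) The values of `θ` at the even involutions with few fixed points are almost equal: this is an
inequality on the group `(𝔽₂ × 𝔽₂) ^ s`.
(4) The remaining long cycles, together with one transposition, form a product of two even
involutions, and one uses (3) and again a dihedral group.
The values at the odd permutations of this kind are also almost equal, to `c'` say, with
`|c'| ≤ c + 12 g / 2 ^ m`: split off a transposition `z` and decompose `θ` under `⟨z⟩`. The order at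
`s₀` of the L-function of a linear character `ρ` of a subgroup `M` of `B` is the multiplicity
`⟨θ|_M, ρ⟩`, which is `g / |M| + x ⟨1, ρ⟩ + y ⟨sign, ρ⟩` up to an error of at most `12 g / 2 ^ m`, where
`x + y = c`, `x - y = c'`. If `M` is replaced by a smaller subgroup then the first term increases by at
least `g / |B|`, and the other terms decrease by at most `24 g / 2 ^ m`.
-/

set_option autoImplicit false

namespace Pool.Agent.Results.MP_9fc8a5_nt.SmallSubgroups

open Polynomial Equiv Pool.Agent.H541R3.ART

/-- Let `E/K` be Galois with group `G`, and let `B` be a subgroup of `G`. For all points `s₀` and all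
functions with the formal properties of the Artin L-functions of `E/K` near `s₀`, for all subgroups
`V ≤ M ≤ B` and all linear characters `ρ` of `M`, the order at `s₀` of the L-function of `ρ` over `E^M`
is at most the order of the L-function of `ρ|_V` over `E^V`; for `ρ = 1`: the quotient
`ζ_{E^V} / ζ_{E^M}` has no pole at `s₀`. The zeros may have any order. -/
def DedekindConjectureFor {G : Type} [Group G] (B : Subgroup G) : Prop :=
  ∀ (s₀ : ℂ) (A : ArtinData G s₀) (V M : Subgroup G) (hVM : V ≤ M), M ≤ B → ∀ ρ : M →* ℂˣ,
    meromorphicOrderAt (A.Lin M ρ) s₀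
      ≤ meromorphicOrderAt (A.Lin V (ρ.comp (Subgroup.inclusion hVM))) s₀

lemma main {m D n : ℕ} (hD : 2 ≤ D) (hn : (16 * D * 2 ^ m) ^ (2 * D + 2) + 2 ≤ n)
    (B : Subgroup (Perm (Fin n))) (hord : ∀ b ∈ B, orderOf b ≤ D)
    (hfix : ∀ b ∈ B, b ≠ 1 → 16 * 2 ^ m * Nat.card {i // b i = i} + 2 ≤ n)
    (hm : 48 * Nat.card B ≤ 2 ^ m) (G : Type) [Group G] [Finite G] (f : Perm (Fin n) →* G)
    (hf : Function.Injective f) : DedekindConjectureFor (B.map f) := by
  intro s₀ A V M hVM hMB ρ
  refine Pool.Agent.Run7.h588.EMB.ded_of_almostS A (by positivity)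
    (Pool.Agent.Run7.h588.EMB.almostS hD hn f hf B hord hfix A.isHeilbronn) ?_ V M hVM hMB ρ
  have h1 : Nat.card (B.map f) = Nat.card B :=
    (Nat.card_congr (B.equivMapOfInjective f hf).toEquiv).symm
  have h2 : (0 : ℝ) < 2 ^ m := by positivity
  have h3 : 48 * (Nat.card B : ℝ) ≤ 2 ^ m := by exact_mod_cast hm
  rw [h1]
  have h4 : 4 * (12 / (2 : ℝ) ^ m) * (Nat.card B : ℝ) = 48 * (Nat.card B : ℝ) / 2 ^ m := by ring
  rw [h4, div_le_one h2]
  exact h3

/-- (1) Let `B` be a subgroup of `Sym(n)`, let all elements of `B` have order at most `D`,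
`48 |B| ≤ 2 ^ m` and `(16 D 2 ^ m) ^ (2 D + 2) + 2 ≤ n`, and let every element `b ≠ 1` of `B` have so few
fixed points that `16 * 2 ^ m * (number of fixed points of b) + 2 ≤ n`. Then for all embeddings `f` of
`Sym(n)` in finite groups `G` (for example `G = Sym(n)`) the conclusion of `DedekindConjectureFor`
holds for the subgroup `f(B)` of `G`.

(2) Let `H` be a finite group. Then there is a number `N` such that for all `n ≥ N` there is an
embedding `ι` of `H` in `Alt(n)` such that, for all embeddings `f` of `Sym(n)` in finite groups `G`, the
conclusion of `DedekindConjectureFor` holds for the subgroup `f(ι(H))` of `G`.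

(3) Moreover, if `p ≥ N` is a prime and `E` is the splitting field of `X ^ p - X - 1` over `ℚ`, then
there is a subfield `F` of `E` such that `E/F` is Galois, `Gal(E/F)` is isomorphic to `H`, and the
conclusion of `DedekindConjectureFor` holds for the subgroup `Gal(E/F)` of `Gal(E/ℚ)`. -/
theorem result :
    (∀ m D n : ℕ, 2 ≤ D → (16 * D * 2 ^ m) ^ (2 * D + 2) + 2 ≤ n →
      ∀ B : Subgroup (Perm (Fin n)), (∀ b ∈ B, orderOf b ≤ D) →
        (∀ b ∈ B, b ≠ 1 → 16 * 2 ^ m * Nat.card {i // b i = i} + 2 ≤ n) →
        48 * Nat.card B ≤ 2 ^ m →
        ∀ (G : Type) [Group G] [Finite G] (f : Perm (Fin n) →* G), Function.Injective f →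
          DedekindConjectureFor (B.map f)) ∧
    (∀ (H : Type) [Group H] [Finite H], ∃ N : ℕ,
      (∀ n : ℕ, N ≤ n → ∃ ι : H →* Perm (Fin n), Function.Injective ι ∧
        (∀ h, Perm.sign (ι h) = 1) ∧
        ∀ (G : Type) [Group G] [Finite G] (f : Perm (Fin n) →* G), Function.Injective f →
          DedekindConjectureFor (f.comp ι).range) ∧
      ∀ p : ℕ, p.Prime → N ≤ p → ∀ (E : Type) [Field E] [NumberField E] [IsGalois ℚ E],
        IsSplittingField ℚ E (X ^ p - X - 1 : ℚ[X]) →
        ∃ F : IntermediateField ℚ E, IsGalois F E ∧ Nonempty ((E ≃ₐ[F] E) ≃* H) ∧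
          DedekindConjectureFor F.fixingSubgroup) := by
  constructor
  · intro m D n hD hn B hord hfix hm G _ _ f hf
    exact main hD hn B hord hfix hm G f hf
  · intro H _ _
    obtain ⟨m, hm⟩ := pow_unbounded_of_one_lt (48 * Nat.card H) one_lt_two
    obtain ⟨N, D, hD, hN⟩ := Pool.Agent.Run7.h588.EMB.exists_emb_all H m
    have key : ∀ n : ℕ, N ≤ n → ∃ ι : H →* Perm (Fin n), Function.Injective ι ∧
        (∀ h, Perm.sign (ι h) = 1) ∧
        ∀ (G : Type) [Group G] [Finite G] (f : Perm (Fin n) →* G), Function.Injective f →
          DedekindConjectureFor (f.comp ι).range := by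
      intro n hn
      obtain ⟨h1, ι, h2, h3, h4, h5⟩ := hN n hn
      refine ⟨ι, h2, h3, fun G _ _ f hf => ?_⟩
      rw [MonoidHom.range_comp]
      refine main hD h1 ι.range h4 h5 ?_ G f hf
      have h6 : Nat.card ι.range = Nat.card H :=
        (Nat.card_congr (MonoidHom.ofInjective h2).toEquiv).symm
      rw [h6]
      exact hm.le
    refine ⟨N, key, ?_⟩
    intro p hp hNp E _ _ _ hs
    obtain ⟨ι, hι, -, h⟩ := key p hNp
    obtain ⟨f, hf⟩ := Pool.Agent.Run7.h588.EMB.selmer_emb hp le_rfl E hs
    obtain ⟨F, h1, h2, h3⟩ := Pool.Agent.Run7.h588.EMB.field_of_subgroup E (f.comp ι) (hf.comp hι)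
    refine ⟨F, h1, h3, ?_⟩
    rw [h2]
    exact h (E ≃ₐ[ℚ] E) f hf

end Pool.Agent.Results.MP_9fc8a5_nt.SmallSubgroups
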