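import Pool.Agent.Run7.h328.SEP.ChebK

/-!
# Chebotarev's theorem with square-root error and arbitrary weights for almost all polynomials over a number field

Let `K` be a number field of degree `d`, `α ∈ 𝓞_K ^ n`, and for `m ∈ ℤ ^ n` let
`f_m = x ^ n + (α_{n-1} + m_{n-1}) x ^ (n - 1) + ... + (α₀ + m₀)`.  If `f_m` is square-free modulo the prime `v`, the degrees of the
irreducible factors of `f_m` modulo `v` are the lengths of the cycles of the Frobenius element at `v` on the roots of `f_m`.  Hence a
function `ψ` of these degrees is a class function on the symmetric group at the Frobenius elements; for instance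

* `ψ = number of degrees 1, minus 1`: the coefficients at the primes of `ζ_L / ζ_K`, `L = K[x] / (f_m)`;
* `ψ = χ` a non-trivial irreducible character of `S_n`: the coefficients at the primes of the Artin L-function `L(s, χ, M / K)`,
  where `M` is the splitting field of `f_m` (with the Galois group `S_n` for almost all `m`);
* `ψ = indicator of a cycle type`: Chebotarev's theorem.

We show: for `H` large in terms of `ε`, `n`, `d`, all number fields `K` of degree `d` and all `α`, all but a proportion
`H ^ (-ε/500)` of the `m ∈ [-H, H] ^ n` have the property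

`|∑ w(v) q_v ^ (-iτ) (ψ(f_m mod v) - mean of ψ over S_n)| ≤ C (N ^ (1/2 + ε) + (log H) ^ (4/ε))`,  `q_v ≤ N`, `f_m` square-free mod `v`,

for all functions `ψ` with `|ψ| ≤ 1`, all `N ≤ H ^ (ε/200)`, all `|τ| ≤ H ^ (ε/200)` and all `w` in a given set of at most
`H ^ (ε/500)` arbitrary complex weights of absolute value at most `1` on the primes of `K`, at the same time, with
`C = C(n, d)`.

Proof.  The number of the factorisations of a random monic polynomial of degree `n` over `F_p` into monic factors of given degrees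
`κ_1, κ_2, ...` has the mean `1`, and so has the corresponding permutation character of `S_n`.  The matrix of these characters is
invertible (triangular), which gives the distribution of the factorisation types with the error `O(1/p)`.  The residues of `m`
modulo the square-free numbers up to a power of `H` are uniformly distributed; hence the `2 j`-th moment of the sum over the
primes of degree one above the prime numbers in `(y, 2 y]`, for `j` about `log H / log y`, is at most `(C j y) ^ j`.  We take the union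
over all `N`, the weights and a grid of `τ`.  The primes of higher degree contribute `O(N ^ (1/2))`.
-/

set_option autoImplicit false

open Filter

namespace Pool.Agent.Results.MP_9fc8a5_nt.SquareRootChebotarev

open NumberField IsDedekindDomain Finset

/-- The polynomial `x ^ n + c_{n-1} x ^ (n-1) + ... + c_0`. -/
noncomputable def poly {R : Type} [CommRing R] {n : ℕ} (c : Fin n → R) : Polynomial R :=
  Polynomial.X ^ n + ∑ i, Polynomial.C (c i) * Polynomial.X ^ (i : ℕ)

open Classical in
/-- The multiset of the degrees of the irreducible factors of `f`, with multiplicities. -/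
noncomputable def factorDegrees {k : Type} [Field k] (f : Polynomial k) : Multiset ℕ :=
  (UniqueFactorizationMonoid.normalizedFactors f).map Polynomial.natDegree

/-- The cycles of the permutation `σ`, fixed points included. -/
abbrev Cycles {n : ℕ} (σ : Equiv.Perm (Fin n)) : Type := Quotient (Equiv.Perm.SameCycle.setoid σ)

/-- The multiset of the lengths of the cycles of `σ`, fixed points included. -/
noncomputable def cycleLengths {n : ℕ} (σ : Equiv.Perm (Fin n)) : Multiset ℕ :=
  letI : Fintype (Cycles σ) := Fintype.ofFinite _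
  (Finset.univ : Finset (Cycles σ)).val.map fun O => Nat.card {x : Fin n // (Quotient.mk _ x : Cycles σ) = O}

/-- The mean of `ψ` over the symmetric group. -/
noncomputable def mean (n : ℕ) (ψ : Multiset ℕ → ℂ) : ℂ :=
  (∑ σ : Equiv.Perm (Fin n), ψ (cycleLengths σ)) / (n.factorial : ℂ)

section
variable {K : Type} [Field K] [NumberField K]

/-- `q_v`, the norm of `v`. -/
noncomputable def q (v : HeightOneSpectrum (𝓞 K)) : ℕ := Ideal.absNorm v.asIdeal

/-- The coefficients modulo `v`. -/
noncomputable def bar (v : HeightOneSpectrum (𝓞 K)) {n : ℕ} (c : Fin n → 𝓞 K) : Fin n → 𝓞 K ⧸ v.asIdeal :=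
  fun i => Ideal.Quotient.mk v.asIdeal (c i)

open Classical in
/-- The sum over the primes `v` of `K` with `q_v ≤ N` modulo which the polynomial is square-free. -/
noncomputable def primeSum {n : ℕ} (c : Fin n → 𝓞 K) (w : HeightOneSpectrum (𝓞 K) → ℂ) (ψ : Multiset ℕ → ℂ) (N : ℕ) (τ : ℝ) : ℂ :=
  ∑' v : HeightOneSpectrum (𝓞 K), if q v ≤ N ∧ Squarefree (poly (bar v c)) then
    w v * (q v : ℂ) ^ (-(τ * Complex.I) : ℂ) * (ψ (factorDegrees (poly (bar v c))) - mean n ψ) else 0

end

/-- The box `[-H, H] ^ n`. -/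
noncomputable def cube (n H : ℕ) : Finset (Fin n → ℤ) := Fintype.piFinset fun _ => Icc (-(H : ℤ)) H

open Run7.h328.SEP.Cheb Run7.h328.SEP.Prm Run7.h328.SEP.Fact in
lemma sub_mean {k : Type} [Field k] {n : ℕ} (c : Fin n → k) (hs : Squarefree (poly c)) (ψ : Multiset ℕ → ℂ) :
    ψ (factorDegrees (poly c)) - mean n ψ = ∑ μ : n.Partition, ψ μ.parts * (loc μ (pl c) : ℂ) := by
  classical
  have hs' : Squarefree (pl c) := hs
  have h1 : ∀ μ : n.Partition, (loc μ (pl c) : ℂ) = (if μ = pft ((moEquiv n).symm c) then 1 else 0) - (Q n μ : ℂ) := by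
    intro μ
    have h4 : ftype (pl c) = μ.parts ↔ μ = pft ((moEquiv n).symm c) := by
      rw [← moEquiv_symm, ← pft_parts]
      constructor
      · intro h
        exact Nat.Partition.ext h.symm
      · intro h
        rw [h]
    unfold loc
    rw [if_pos hs']
    by_cases h : μ = pft ((moEquiv n).symm c)
    · rw [if_pos (h4.2 h), if_pos h]
      push_cast
      ring
    · rw [if_neg (fun h' => h (h4.1 h')), if_neg h]
      push_cast
      ring
  rw [Finset.sum_congr rfl fun μ _ => by rw [h1 μ]]
  simp only [mul_sub, mul_ite, mul_one, mul_zero]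
  rw [Finset.sum_sub_distrib, Finset.sum_ite_eq']
  simp only [Finset.mem_univ, if_true]
  congr 1
  · show ψ (ftype (pl c)) = _
    rw [pft_parts, moEquiv_symm]
  · unfold mean Q
    have h2 : ∀ μ : n.Partition,
        ψ μ.parts * (((((Finset.univ : Finset (Equiv.Perm (Fin n))).filter (fun σ => ptyp σ = μ)).card : ℝ) / n.factorial : ℝ) : ℂ) =
        (∑ σ : Equiv.Perm (Fin n), if ptyp σ = μ then ψ (ptyp σ).parts else 0) / (n.factorial : ℂ) := by
      intro μ
      push_cast
      rw [Finset.card_filter]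
      push_cast
      rw [← mul_div_assoc, Finset.mul_sum]
      congr 1
      refine Finset.sum_congr rfl fun σ _ => ?_
      split_ifs with h
      · rw [h, mul_one]
      · rw [mul_zero]
    rw [Finset.sum_congr rfl fun μ _ => h2 μ, ← Finset.sum_div, Finset.sum_comm]
    congr 1
    refine Finset.sum_congr rfl fun σ _ => ?_
    rw [Finset.sum_ite_eq]
    simp only [Finset.mem_univ, if_true]
    rfl

/-- **The theorem.**  See the head of the file. -/
theorem result (n d : ℕ) : ∃ C : ℝ, 0 < C ∧ ∀ ε : ℝ, 0 < ε → ε ≤ 1 → ∃ H₀ : ℕ, ∀ H : ℕ, H₀ ≤ H →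
    ∀ (K : Type) [Field K] [NumberField K], Module.finrank ℚ K = d → ∀ α : Fin n → 𝓞 K,
    ∀ W : Finset (HeightOneSpectrum (𝓞 K) → ℂ), (W.card : ℝ) ≤ (H : ℝ) ^ (ε / 500) → (∀ w ∈ W, ∀ v, ‖w v‖ ≤ 1) →
    ∃ X ⊆ cube n H, (X.card : ℝ) ≤ (H : ℝ) ^ (-(ε / 500)) * (2 * H + 1) ^ n ∧
      ∀ m ∈ cube n H \ X, ∀ w ∈ W, ∀ ψ : Multiset ℕ → ℂ, (∀ s, ‖ψ s‖ ≤ 1) → ∀ (N : ℕ) (τ : ℝ),
        (N : ℝ) ≤ (H : ℝ) ^ (ε / 200) → |τ| ≤ (H : ℝ) ^ (ε / 200) →
        ‖primeSum (fun k => α k + (m k : 𝓞 K)) w ψ N τ‖ ≤ C * ((N : ℝ) ^ (1 / 2 + ε) + Real.log H ^ (4 / ε)) := by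
  classical
  obtain ⟨C, hC, h⟩ := Run7.h328.SEP.Cheb.chebK n d
  refine ⟨(Finset.univ : Finset n.Partition).card * C + 1, by positivity, fun ε hε hε1 => ?_⟩
  obtain ⟨H₀, h⟩ := Filter.eventually_atTop.1 (h ε hε hε1)
  refine ⟨H₀, fun H hH K _ _ hK α W hWc hW => ?_⟩
  obtain ⟨Ex, hE1, hE2, hE3⟩ := h H hH K hK α W hW hWc
  have hbox : Pool.Agent.Y722.HS.box (Fin n) H = cube n H := rfl
  have hcard : ((cube n H).card : ℝ) = (2 * H + 1) ^ n := by
    unfold cube
    rw [Fintype.card_piFinset]
    simp only [Int.card_Icc, Finset.prod_const, Finset.card_univ, Fintype.card_fin]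
    have : ((H : ℤ) + 1 - -(H : ℤ)).toNat = 2 * H + 1 := by omega
    rw [this]
    push_cast
    ring
  rw [hbox] at hE1 hE2 hE3
  refine ⟨Ex, hE1, ?_, ?_⟩
  · rw [← hcard]
    exact hE2
  · intro m hm w hw ψ hψ N τ hN hτ
    set c : Fin n → 𝓞 K := fun k => α k + (m k : 𝓞 K) with hc
    have hQ : 0 ≤ (N : ℝ) ^ (1 / 2 + ε) + Real.log H ^ (4 / ε) := by
      have : 0 ≤ Real.log H := Real.log_natCast_nonneg H
      positivity
    have hfin := Run7.h328.SEP.finite_low (K := K) N
    have hsum : primeSum c w ψ N τ = ∑ μ : n.Partition, ψ μ.parts * ∑' v : HeightOneSpectrum (𝓞 K),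
        if Pool.Agent.H921R2.TatePole.nm v ≤ N then
          w v * (Run7.h328.SEP.Cheb.loc μ (Run7.h328.SEP.Fact.pl (Run7.h328.SEP.Fact.rv v c)) : ℂ) *
            ((Pool.Agent.H921R2.TatePole.nm v : ℕ) : ℂ) ^ (-((τ : ℂ) * Complex.I)) else 0 := by
      have hsupp : ∀ μ : n.Partition, ∀ v ∉ hfin.toFinset, (if Pool.Agent.H921R2.TatePole.nm v ≤ N then
          w v * (Run7.h328.SEP.Cheb.loc μ (Run7.h328.SEP.Fact.pl (Run7.h328.SEP.Fact.rv v c)) : ℂ) *
            ((Pool.Agent.H921R2.TatePole.nm v : ℕ) : ℂ) ^ (-((τ : ℂ) * Complex.I)) else 0) = 0 := by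
        intro μ v hv
        rw [Set.Finite.mem_toFinset] at hv
        exact if_neg hv
      rw [Finset.sum_congr rfl fun μ _ => by rw [tsum_eq_sum (hsupp μ), Finset.mul_sum], Finset.sum_comm]
      unfold primeSum
      rw [tsum_eq_sum (s := hfin.toFinset)]
      · refine Finset.sum_congr rfl fun v hv => ?_
        rw [Set.Finite.mem_toFinset] at hv
        have hv' : q v ≤ N := hv
        have hv2 : Pool.Agent.H921R2.TatePole.nm v ≤ N := hv
        simp only [if_pos hv2]
        by_cases hs : Squarefree (poly (bar v c))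
        · rw [if_pos ⟨hv', hs⟩, sub_mean (bar v c) hs ψ, Finset.mul_sum]
          refine Finset.sum_congr rfl fun μ _ => ?_
          have e1 : q v = Pool.Agent.H921R2.TatePole.nm v := rfl
          have e2 : Run7.h328.SEP.Fact.rv v c = bar v c := rfl
          rw [e1, e2]
          ring
        · rw [if_neg (fun h' => hs h'.2)]
          symm
          apply Finset.sum_eq_zero
          intro μ _
          have h0 : Run7.h328.SEP.Cheb.loc μ (Run7.h328.SEP.Fact.pl (Run7.h328.SEP.Fact.rv v c)) = 0 := by
            unfold Run7.h328.SEP.Cheb.loc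
            exact if_neg hs
          rw [h0]
          simp
      · intro v hv
        rw [Set.Finite.mem_toFinset] at hv
        exact if_neg fun h' => hv h'.1
    rw [hsum]
    refine (norm_sum_le _ _).trans ?_
    have hone : ∀ μ ∈ (Finset.univ : Finset n.Partition), ‖ψ μ.parts * ∑' v : HeightOneSpectrum (𝓞 K),
        if Pool.Agent.H921R2.TatePole.nm v ≤ N then
          w v * (Run7.h328.SEP.Cheb.loc μ (Run7.h328.SEP.Fact.pl (Run7.h328.SEP.Fact.rv v c)) : ℂ) *
            ((Pool.Agent.H921R2.TatePole.nm v : ℕ) : ℂ) ^ (-((τ : ℂ) * Complex.I)) else 0‖ ≤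
        C * ((N : ℝ) ^ (1 / 2 + ε) + Real.log H ^ (4 / ε)) := by
      intro μ _
      rw [norm_mul]
      have h1 := hE3 m hm w hw μ N hN τ hτ
      calc _ ≤ 1 * _ := mul_le_mul_of_nonneg_right (hψ _) (norm_nonneg _)
        _ ≤ _ := by
          rw [one_mul]
          exact h1
    refine (Finset.sum_le_card_nsmul _ _ _ hone).trans ?_
    rw [nsmul_eq_mul]
    nlinarith

end Pool.Agent.Results.MP_9fc8a5_nt.SquareRootChebotarev
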