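import Mathlib
import Pool.Agent.Run7.h508.BR.DedE

/-!
# A point where `ζ_L / ζ_K` is not holomorphic is a zero of unramified quotients of prime degree

Let `s ≠ 0, 1` be a complex number and `m > 0` an integer. All Dedekind zeta functions have at `s`
the same order as the Riemann zeta function if and only if, for all totally complex number fields `K`
and all everywhere unramified Galois extensions `L/K` of prime degree in which the primes above `m`
are completely split, `ζ_L` and `ζ_K` have the same order at `s` (so `L(s, χ) ≠ 0` for the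
unramified characters `χ ≠ 1` of prime order of `K` which are trivial at the primes above `m`).

Hence a counterexample `L/K` to problem Q1 has a point `s` such that for every `m` there is such an
everywhere unramified extension whose quotient of zeta functions is zero at `s`.
-/

set_option autoImplicit false
set_option linter.unusedSectionVars false

namespace Pool.Agent.Results.MP_9fc8a5_nt.UnramifiedZeros

open NumberField

/-- `Z` is the meromorphic continuation of the Dedekind zeta function of `F`. -/
def IsZeta (F : Type) [Field F] [NumberField F] (Z : ℂ → ℂ) : Prop :=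
  (∀ s, MeromorphicAt Z s) ∧ ∀ s : ℂ, 1 < s.re → Z s = dedekindZeta F s

/-- The order at `s` of the meromorphic continuation of the Dedekind zeta function of `F`. -/
noncomputable def ord (F : Type) [Field F] [NumberField F] (s : ℂ) : ℤ :=
  (meromorphicOrderAt (Classical.epsilon (IsZeta F)) s).untop₀

/-- `ζ_L / ζ_K` is entire. -/
def Entire (K L : Type) [Field K] [NumberField K] [Field L] [NumberField L] : Prop :=
  ∃ g : ℂ → ℂ, Differentiable ℂ g ∧ ∀ s : ℂ, 1 < s.re → g s = dedekindZeta L s / dedekindZeta K s

/-- All inertia groups of `L/K` are trivial, and the decomposition groups of the primes above `m`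
are trivial. -/
def UnramifiedSplit (m : ℕ) (K L : Type) [Field K] [Field L] [Algebra K L] : Prop :=
  ∀ P : Ideal (𝓞 L), P.IsMaximal → ∀ g : L ≃ₐ[K] L,
    ((∀ x y : 𝓞 L, (y : L) = g x → y - x ∈ P) → g = 1) ∧
    ((m : 𝓞 L) ∈ P → (∀ x y : 𝓞 L, (y : L) = g x → (y ∈ P ↔ x ∈ P)) → g = 1)

/-- There is an everywhere unramified Galois extension `L/K` of prime degree of a totally complex
field, split above `m`, such that `ζ_L` and `ζ_K` have different orders at `s`. -/
def UnramifiedZero (m : ℕ) (s : ℂ) : Prop :=
  ∃ (K L : Type) (_ : Field K) (_ : NumberField K) (_ : Field L) (_ : NumberField L)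
    (_ : Algebra K L), IsGalois K L ∧ IsTotallyComplex K ∧ (Module.finrank K L).Prime ∧
      UnramifiedSplit m K L ∧ ord L s ≠ ord K s

section proof

open Pool.Agent.Run7.h508.BR (zord UnrSplit zord_eq exists_isZeta zord_const entire_iff)

lemma unrSplit_of {m : ℕ} {K L : Type} [Field K] [Field L] [Algebra K L]
    (h : UnrSplit m K L) : UnramifiedSplit m K L := by
  intro P hP g
  refine ⟨fun h1 => (h P hP).1 g fun x => h1 x _ rfl, fun hm h1 => (h P hP).2 hm g fun x =>
    h1 x _ rfl⟩

lemma ord_eq (F : Type) [Field F] [NumberField F] (s : ℂ) : ord F s = zord F s := by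
  have h : IsZeta F (Classical.epsilon (IsZeta F)) :=
    Classical.epsilon_spec (exists_isZeta F)
  rw [ord, zord_eq F h s]
  rfl

lemma const_of {m : ℕ} (hm : m ≠ 0) {s : ℂ} (h0 : s ≠ 0) (h1 : s ≠ 1) (h : ¬ UnramifiedZero m s)
    (K : Type) [Field K] [NumberField K] : ord K s = ord ℚ s := by
  rw [ord_eq, ord_eq]
  refine zord_const hm h0 h1 (fun K L _ _ _ _ _ _ hK hp hu => ?_) K
  by_contra hne
  refine h ⟨K, L, inferInstance, inferInstance, inferInstance, inferInstance, inferInstance,
    inferInstance, hK, hp, unrSplit_of hu, ?_⟩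
  rw [ord_eq, ord_eq]
  exact hne

end proof

/-- **Main theorem.**

* The Dedekind zeta functions have meromorphic continuations, and all of them have the order `ord`.
* For all `s ≠ 0, 1` and `m > 0`: all number fields `K` have `ord K s = ord ℚ s` if and only if no
  everywhere unramified extension `L/K` of prime degree of a totally complex field, split above `m`,
  has `ord L s ≠ ord K s`.
* If `ζ_L / ζ_K` is not entire, then there is `s ≠ 0, 1` with `ord L s < ord K s` such that for all
  `m > 0` some everywhere unramified extension `L'/K'` of prime degree of a totally complex field,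
  split above `m`, has `ord L' s ≠ ord K' s`. -/
theorem result :
    (∀ (F : Type) [Field F] [NumberField F], (∃ Z, IsZeta F Z) ∧
      ∀ Z, IsZeta F Z → ∀ s, meromorphicOrderAt Z s = ord F s) ∧
    (∀ s : ℂ, s ≠ 0 → s ≠ 1 → ∀ m : ℕ, m ≠ 0 →
      ((∀ (K : Type) [Field K] [NumberField K], ord K s = ord ℚ s) ↔ ¬ UnramifiedZero m s)) ∧
    ∀ (K L : Type) [Field K] [NumberField K] [Field L] [NumberField L] [Algebra K L],
      ¬ Entire K L → ∃ s : ℂ, s ≠ 0 ∧ s ≠ 1 ∧ ord L s < ord K s ∧
        ∀ m : ℕ, m ≠ 0 → UnramifiedZero m s := by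
  refine ⟨fun F _ _ => ⟨Pool.Agent.Run7.h508.BR.exists_isZeta F, fun Z hZ s => ?_⟩,
    fun s h0 h1 m hm => ⟨?_, fun h K _ _ => const_of hm h0 h1 h K⟩, fun K L _ _ _ _ _ h => ?_⟩
  · rw [ord_eq]
    exact Pool.Agent.Run7.h508.BR.zord_eq F hZ s
  · rintro h ⟨K, L, i1, i2, i3, i4, i5, h1, h2, h3, h4, h5⟩
    exact h5 ((h L).trans (h K).symm)
  · have h1 : ¬ ∀ s : ℂ, s ≠ 0 → s ≠ 1 → Pool.Agent.Run7.h508.BR.zord K s ≤
        Pool.Agent.Run7.h508.BR.zord L s := fun h2 =>
      h ((Pool.Agent.Run7.h508.BR.entire_iff K L).mpr h2)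
    push Not at h1
    obtain ⟨s, h0, h1, h2⟩ := h1
    refine ⟨s, h0, h1, ?_, fun m hm => ?_⟩
    · rw [ord_eq, ord_eq]
      exact h2
    · by_contra h3
      have e1 := const_of hm h0 h1 h3 K
      have e2 := const_of hm h0 h1 h3 L
      rw [← ord_eq, ← ord_eq, e1, e2] at h2
      exact lt_irrefl _ h2

end Pool.Agent.Results.MP_9fc8a5_nt.UnramifiedZeros
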